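import Mathlib
import Pool.Graph.R_seed8.R122.TD.Bridge

/-!
# Treedepth of graphs of bounded 2-treedepth: a local form of the formula of Hodor et al.

`td`, `td₂` are the treedepth and the 2-treedepth of the induced subgraphs `G[S]`, defined in
`Pool/Graph/R_seed8/R122/TD/Defs.lean` by the recursions of the problem file. A ranking is the depth
function of an elimination forest.
-/

set_option autoImplicit false

namespace Pool.Agent.Results.MP_28efe0_co.LocalForm

open Pool.Agent.R122.TD

/-- `c` is a ranking of `G` (the depth function of an elimination forest, depths starting with `1`):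
on every walk between two different vertices of the same rank there is a vertex of smaller rank. -/
def IsRanking {V : Type} (G : SimpleGraph V) (c : V → ℕ) : Prop :=
  (∀ v, 1 ≤ c v) ∧
    ∀ u v : V, u ≠ v → c u = c v → ∀ p : G.Walk u v, ∃ w ∈ p.support, c w < c u

/-- No induced path of `G` with `t` vertices starts at `v`. -/
def NoPathFrom {V : Type} (G : SimpleGraph V) (t : ℕ) (v : V) : Prop :=
  ∀ (ht : 0 < t) (e : SimpleGraph.pathGraph t ↪g G), e ⟨0, ht⟩ ≠ v

section
variable {V : Type} [DecidableEq V] {G : SimpleGraph V}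

/-- the ranking property inside a set -/
def Rk (G : SimpleGraph V) (c : V → ℕ) (S : Finset V) : Prop :=
  ∀ u ∈ S, ∀ v ∈ S, u ≠ v → c u = c v → ∀ p : G.Walk u v, (∀ x ∈ p.support, x ∈ S) →
    ∃ w ∈ p.support, c w < c u

/-- a walk in `A ∪ B` which starts in `A` stays in `A` when there are no edges between the sides -/
theorem walk_side {A B : Finset V} (hn : NE G A B) {u v : V} (p : G.Walk u v) :
    u ∈ A → (∀ x ∈ p.support, x ∈ A ∪ B) → ∀ x ∈ p.support, x ∈ A := by
  induction p with
  | nil =>
    intro hu _ x hx
    rw [SimpleGraph.Walk.support_nil, List.mem_singleton] at hx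
    rw [hx]; exact hu
  | cons h p ih =>
    intro hu hs x hx
    rw [SimpleGraph.Walk.support_cons, List.mem_cons] at hx
    have h1 := hs _ (by
      rw [SimpleGraph.Walk.support_cons]
      exact List.mem_cons_of_mem _ p.start_mem_support)
    have h2 : _ ∈ A := (Finset.mem_union.1 h1).resolve_right fun hB => hn _ hu _ hB h
    rcases hx with hx | hx
    · rw [hx]; exact hu
    · refine ih h2 (fun y hy => hs y ?_) x hx
      rw [SimpleGraph.Walk.support_cons]
      exact List.mem_cons_of_mem _ hy

theorem exists_rank {β : V → ℕ} {S : Finset V} (h : El G β S) :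
    ∃ c : V → ℕ, (∀ v ∈ S, c v ≤ β v) ∧ El G c S ∧ Rk G c S := by
  induction h with
  | nil β =>
    exact ⟨fun _ => 0, fun v hv => absurd hv (Finset.notMem_empty _), El.nil _,
      fun u hu => absurd hu (Finset.notMem_empty _)⟩
  | rem β S v hv hpos h ih =>
    obtain ⟨c', h1, h2, h3⟩ := ih
    have hpos' := h2.pos
    refine ⟨fun u => if u = v then 1 else c' u + 1, ?_, ?_, ?_⟩
    · intro u hu
      by_cases huv : u = v
      · simp only [huv, if_true]; exact hpos
      · simp only [if_neg huv]
        have hu' := Finset.mem_erase.2 ⟨huv, hu⟩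
        have := h1 u hu'
        have := hpos' u hu'
        simp only at *
        omega
    · refine El.rem _ S v hv (by simp) (h2.mono _ fun u hu => ?_)
      have : u ≠ v := (Finset.mem_erase.1 hu).1
      simp [this]
    · intro u hu w hw huw hc p hp
      by_cases huv : u = v
      · subst huv
        have hwv : w ≠ u := Ne.symm huw
        simp only [if_true, if_neg hwv] at hc
        have := hpos' w (Finset.mem_erase.2 ⟨hwv, hw⟩)
        omega
      by_cases hwv : w = v
      · subst hwv
        simp only [if_true, if_neg huv] at hc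
        have := hpos' u (Finset.mem_erase.2 ⟨huv, hu⟩)
        omega
      simp only [if_neg huv, if_neg hwv] at hc ⊢
      have hup := hpos' u (Finset.mem_erase.2 ⟨huv, hu⟩)
      by_cases hvp : v ∈ p.support
      · exact ⟨v, hvp, by simp only [if_true]; omega⟩
      · obtain ⟨x, hx, hx'⟩ := h3 u (Finset.mem_erase.2 ⟨huv, hu⟩) w
          (Finset.mem_erase.2 ⟨hwv, hw⟩) huw (by omega) p
          (fun x hx => Finset.mem_erase.2 ⟨fun h => hvp (h ▸ hx), hp x hx⟩)
        refine ⟨x, hx, ?_⟩
        have hxv : x ≠ v := fun h => hvp (h ▸ hx)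
        simp only [if_neg hxv]
        omega
  | spl β A B hd hn hA hB ihA ihB =>
    obtain ⟨a, a1, a2, a3⟩ := ihA
    obtain ⟨b, b1, b2, b3⟩ := ihB
    have hBA : ∀ v ∈ B, v ∉ A := fun v hv hA => Finset.disjoint_left.1 hd hA hv
    refine ⟨fun v => if v ∈ A then a v else b v, ?_, ?_, ?_⟩
    · intro v hv
      by_cases hvA : v ∈ A
      · simp only [if_pos hvA]; exact a1 v hvA
      · simp only [if_neg hvA]
        exact b1 v ((Finset.mem_union.1 hv).resolve_left hvA)
    · refine El.spl _ A B hd hn (a2.mono _ fun v hv => ?_) (b2.mono _ fun v hv => ?_)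
      · simp [hv]
      · simp [hBA v hv]
    · intro u hu w hw huw hc p hp
      rcases Finset.mem_union.1 hu with huA | huB
      · have hside := walk_side hn p huA hp
        have hwA := hside w p.end_mem_support
        simp only [if_pos huA, if_pos hwA] at hc ⊢
        obtain ⟨x, hx, hx'⟩ := a3 u huA w hwA huw hc p hside
        exact ⟨x, hx, by simp only [if_pos (hside x hx)]; exact hx'⟩
      · have hside := walk_side hn.symm p huB (by rw [Finset.union_comm]; exact hp)
        have hwB := hside w p.end_mem_support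
        simp only [if_neg (hBA u huB), if_neg (hBA w hwB)] at hc ⊢
        obtain ⟨x, hx, hx'⟩ := b3 u huB w hwB huw hc p hside
        exact ⟨x, hx, by simp only [if_neg (hBA x (hside x hx))]; exact hx'⟩

/-- the length of the longest induced path which starts at `v` -/
noncomputable def len (G : SimpleGraph V) [Fintype V] (v : V) : ℕ :=
  sSup {n | ∃ b, IP G Finset.univ v b n}

omit [DecidableEq V] in
theorem ip_le_card [Fintype V] {a b : V} {n : ℕ} (h : IP G Finset.univ a b n) :
    n ≤ Fintype.card V := by
  obtain ⟨f, -, -, -, hf, -, -⟩ := h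
  have hinj : Function.Injective (fun i : Fin (n + 1) => f i.1) := by
    intro i j hij
    by_contra hne
    have hne' : i.1 ≠ j.1 := fun h => hne (Fin.ext h)
    rcases Nat.lt_or_gt_of_ne hne' with h | h
    · exact hf i.1 j.1 h (by omega) hij
    · exact hf j.1 i.1 h (by omega) hij.symm
  have := Fintype.card_le_of_injective _ hinj
  rw [Fintype.card_fin] at this
  omega

theorem le_len [Fintype V] {a b : V} {n : ℕ} (h : IP G Finset.univ a b n) : n ≤ len G a :=
  le_csSup ⟨Fintype.card V, fun _ ⟨_, hb⟩ => ip_le_card hb⟩ ⟨b, h⟩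

theorem len_mem [Fintype V] (v : V) : ∃ b, IP G Finset.univ v b (len G v) :=
  Nat.sSup_mem (s := {n | ∃ b, IP G Finset.univ v b n})
    ⟨0, v, IP.refl (Finset.mem_univ _)⟩ ⟨Fintype.card V, fun _ ⟨_, hb⟩ => ip_le_card hb⟩

/-- If no induced path with `t` vertices starts at `v`, the induced paths from `v` have length at
most `t - 2`. -/
theorem len_of_noPath [Fintype V] {t : ℕ} (ht : 2 ≤ t) {v : V} (h : NoPathFrom G t v) :
    len G v + 2 ≤ t := by
  by_contra hcon
  obtain ⟨b, f, h0, h1, h2, h3, h4, h5⟩ := len_mem (G := G) v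
  set n := len G v with hn
  have hadj : ∀ i j : ℕ, i < j → j ≤ n → (G.Adj (f i) (f j) ↔ i + 1 = j) := by
    intro i j hij hj
    constructor
    · intro hA
      by_contra hne
      exact h5 i j (by omega) hj hA
    · intro hA
      subst hA
      exact h4 i (by omega)
  refine h (by omega) ⟨⟨fun i => f i.1, ?_⟩, ?_⟩ ?_
  · intro i j hij
    by_contra hne
    have hne' : i.1 ≠ j.1 := fun h => hne (Fin.ext h)
    rcases Nat.lt_or_gt_of_ne hne' with h | h
    · exact h3 i.1 j.1 h (by omega) hij
    · exact h3 j.1 i.1 h (by omega) hij.symm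
  · intro i j
    rw [SimpleGraph.pathGraph_adj]
    show G.Adj (f i.1) (f j.1) ↔ _
    rcases Nat.lt_trichotomy i.1 j.1 with h | h | h
    · rw [hadj _ _ h (by omega)]
      constructor
      · exact Or.inl
      · rintro (h' | h')
        · exact h'
        · omega
    · rw [h]
      constructor
      · intro h'; exact absurd h' (G.loopless.irrefl _)
      · omega
    · rw [G.adj_comm, hadj _ _ h (by omega)]
      constructor
      · exact Or.inr
      · rintro (h' | h')
        · omega
        · exact h'
  · exact h0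

end

/-- **Local form.** Let `G` be a finite graph of 2-treedepth at most `k`, `k ≥ 1`. There is a ranking
`c` of `G` such that for ALL `t ≥ 2` every vertex `v` at which no induced path with `t` vertices
starts satisfies `c v ≤ binom (⌊(t-1)/2⌋ + k - 1) ⌊(t-1)/2⌋`. Moreover the treedepth of `G` is at
most the maximum of `c`; so for a `P_t`-free graph one gets the bound of Q1. -/
theorem result (V : Type) [Fintype V] [DecidableEq V] (G : SimpleGraph V) (k : ℕ) (hk : 1 ≤ k)
    (h2 : td₂ G Finset.univ ≤ k) :
    ∃ c : V → ℕ, IsRanking G c ∧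
      (∀ t : ℕ, 2 ≤ t → ∀ v : V, NoPathFrom G t v →
        c v ≤ ((t - 1) / 2 + k - 1).choose ((t - 1) / 2)) ∧
      ∀ m : ℕ, (∀ v, c v ≤ m) → td G Finset.univ ≤ m := by
  obtain ⟨κ, rfl⟩ : ∃ κ, k = κ + 1 := ⟨k - 1, by omega⟩
  have hT := T2_of_td₂ (G := G) _ _ h2
  have hP : PC G Finset.univ (fun v => (len G v + 1) / 2) := by
    intro a b n hp
    have h1 := le_len hp
    have h2 := le_len hp.symm
    show n ≤ (len G a + 1) / 2 + (len G b + 1) / 2
    omega
  obtain ⟨c, hc1, hc2, hc3⟩ := exists_rank (UU_all (G := G) κ Finset.univ _ hT hP)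
  refine ⟨c, ⟨fun v => hc2.pos v (Finset.mem_univ _), fun u v huv hc p =>
    hc3 u (Finset.mem_univ _) v (Finset.mem_univ _) huv hc p fun _ _ => Finset.mem_univ _⟩, ?_, ?_⟩
  · intro t ht v hv
    have h1 := hc1 v (Finset.mem_univ _)
    have h3 := len_of_noPath ht hv
    refine h1.trans ((Phi_mono κ (show (len G v + 1) / 2 ≤ (t - 1) / 2 by omega)).trans
      (le_of_eq ?_))
    unfold Phi
    rw [show (t - 1) / 2 + (κ + 1) - 1 = (t - 1) / 2 + κ by omega]
    exact Nat.choose_symm_add.symm
  · intro m hm
    exact td_le_of_forall (G := G) (S := Finset.univ) fun C hC hCC =>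
      td_le_of_El hc2 m (fun v _ => hm v) C hC hCC

end Pool.Agent.Results.MP_28efe0_co.LocalForm
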